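import Pool.Agent.Helper53.Slit.OneArm
import Pool.Agent.Helper53.Slit.Parity

/-!
Many scales: the probability of a connection from the ball of radius `m` to distance `n` decays
exponentially in the number of scales, uniformly in the domain (RSW).
-/

set_option autoImplicit false

namespace H47Perc.JN
open Finset Filter Topology SimpleGraph H47Perc H47Perc.DS H47Perc.SL
open Pool.Agent.Helper69.RSW (Up P_restrict P_congr P_mono Dep P P_indep P_nonneg P_le_one)

/-- a connection from the ball of radius `m` around `c` to the distance `n` -/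
def XC (c : ℤ × ℤ) (m n : ℤ) (ω : Finset (Sym2 (ℤ × ℤ))) : Prop :=
  ∃ u z : ℤ × ℤ, nrm (u - c) ≤ m ∧ n ≤ nrm (z - c) ∧ Joined ω u z

lemma xc_up (c : ℤ × ℤ) (m n : ℤ) : Up (XC c m n) := by
  rintro ω ω' h ⟨u, z, h1, h2, h3⟩
  exact ⟨u, z, h1, h2, joined_mono h h3⟩

lemma xc_anti {c : ℤ × ℤ} {m n n' : ℤ} (h : n ≤ n') {ω : Finset (Sym2 (ℤ × ℤ))}
    (hc : XC c m n' ω) : XC c m n ω := by
  obtain ⟨u, z, h1, h2, h3⟩ := hc
  exact ⟨u, z, h1, h.trans h2, h3⟩

open Classical in
lemma xc_step {S : Finset (ℤ × ℤ)} {m R : ℤ} (hm : m ≤ R) (hR : 0 ≤ R)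
    {ω : Finset (Sym2 (ℤ × ℤ))} (hω : ω ⊆ edgesIn S) (h : XC 0 m (3 * (R + 1)) ω) :
    XC 0 m R (ω ∩ edgesIn (S.filter (fun v => nrm v ≤ R))) ∧
      Cross (R + 1) (3 * (R + 1)) (ω ∩ edgesIn (annPart S (R + 1) (3 * (R + 1)))) := by
  obtain ⟨u, z, h1, h2, h3⟩ := h
  rw [sub_zero] at h1 h2
  have huz : u ≠ z := by
    rintro rfl
    omega
  have huS : u ∈ S := mem_of_joined_ne hω h3 huz
  constructor
  · obtain ⟨w, w', w1, w2, w3, w4, w5, w6⟩ := joined_exit (T := S.filter (fun v => nrm v ≤ R)) hω h3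
      (by rw [mem_filter]; exact ⟨huS, by omega⟩) (by rw [mem_filter]; rintro ⟨_, hh⟩; omega)
    rw [mem_filter] at w1 w2
    have h4 := adj_nrm w4.symm
    refine ⟨u, w, by rw [sub_zero]; exact h1, ?_, w6⟩
    rw [sub_zero]
    by_contra hc
    exact w2 ⟨w3, by omega⟩
  · -- first exit of the ball of radius `3(R+1) - 1`
    obtain ⟨w, w', w1, w2, w3, w4, w5, w6⟩ := joined_exit
      (T := S.filter (fun v => nrm v < 3 * (R + 1))) hω h3
      (by rw [mem_filter]; exact ⟨huS, by omega⟩) (by rw [mem_filter]; rintro ⟨_, hh⟩; omega)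
    rw [mem_filter] at w1 w2
    have h4 := adj_nrm w4.symm
    have hw' : nrm w' = 3 * (R + 1) := by
      have : ¬ nrm w' < 3 * (R + 1) := fun hc => w2 ⟨w3, hc⟩
      omega
    set B : Finset (ℤ × ℤ) := S.filter (fun v => nrm v ≤ 3 * (R + 1)) with hB
    have h5 : Joined (ω ∩ edgesIn B) u w' := by
      refine joined_trans (joined_mono ?_ w6) (joined_edge ?_)
      · intro e he
        rw [mem_inter] at he ⊢
        refine ⟨he.1, edgesIn_mono ?_ he.2⟩
        intro v hv
        rw [mem_filter] at hv ⊢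
        exact ⟨hv.1, hv.2.le⟩
      · rw [mem_inter, mem_edgesIn, hB, mem_filter, mem_filter]
        exact ⟨w5, ⟨w1.1, w1.2.le⟩, ⟨w3, hw'.le⟩, w4⟩
    obtain ⟨v, v', v1, v2, v3, v4, v5, v6⟩ := joined_exit
      (T := B.filter (fun v => R + 2 ≤ nrm v)) (inter_subset_right (s₁ := ω)) (joined_symm h5)
      (by rw [mem_filter, hB, mem_filter]; exact ⟨⟨w3, hw'.le⟩, by omega⟩)
      (by rw [mem_filter]; rintro ⟨_, hh⟩; omega)
    rw [mem_filter, hB, mem_filter] at v1
    rw [hB, mem_filter] at v3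
    have h6 := adj_nrm v4
    have hv' : nrm v' = R + 1 := by
      have : ¬ R + 2 ≤ nrm v' := fun hc => v2 (by rw [mem_filter, hB, mem_filter]; exact ⟨v3, hc⟩)
      omega
    refine ⟨v', w', hv', hw', joined_symm (joined_trans (joined_mono ?_ v6) (joined_edge ?_))⟩
    · intro e he
      rw [mem_inter, mem_inter] at he
      rw [mem_inter]
      refine ⟨he.1.1, edgesIn_mono ?_ he.2⟩
      intro x hx
      rw [mem_filter, hB, mem_filter] at hx
      rw [mem_annPart]
      exact ⟨hx.1.1, by omega, hx.1.2⟩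
    · rw [mem_inter] at v5
      rw [mem_inter, mem_edgesIn, mem_annPart, mem_annPart]
      exact ⟨v5.1, ⟨v1.1.1, by omega, v1.1.2⟩, ⟨v3.1, by omega, v3.2⟩, v4⟩

/-- the radii -/
def rad (m : ℕ) : ℕ → ℕ
  | 0 => m
  | k + 1 => 3 * (rad m k + 1)

lemma le_rad (m k : ℕ) : m ≤ rad m k := by
  induction k with
  | zero => exact le_rfl
  | succ k ih => show m ≤ 3 * (rad m k + 1); omega

lemma rad_le {m : ℕ} (hm : 1 ≤ m) (k : ℕ) : rad m k ≤ 6 ^ k * m := by
  induction k with
  | zero => simp [rad]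
  | succ k ih =>
    show 3 * (rad m k + 1) ≤ _
    have := le_rad m k
    rw [pow_succ]
    nlinarith

theorem xc_rad {q : ℝ} (hq1 : q ≤ 1) (h : ∀ m : ℕ, 1 ≤ m → crF m (3 * m) ≤ 1 - q)
    (S : Finset (ℤ × ℤ)) (m k : ℕ) :
    P (edgesIn S) (XC 0 m (rad m k)) ≤ (1 - q) ^ k := by
  classical
  induction k with
  | zero => simpa using P_le_one _ _
  | succ k ih =>
    set R := rad m k with hR
    have hmR : (m : ℤ) ≤ R := by exact_mod_cast le_rad m k
    set T : Finset (ℤ × ℤ) := S.filter (fun v => nrm v ≤ (R : ℤ)) with hT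
    set A : Finset (ℤ × ℤ) := annPart S (R + 1) (3 * (R + 1)) with hA
    have hd : Disjoint T A := by
      rw [Finset.disjoint_left]
      intro z h1 h2
      rw [hT, mem_filter] at h1
      rw [hA, mem_annPart] at h2
      omega
    have hTS : T ⊆ S := filter_subset _ _
    have hAS : A ⊆ S := fun z hz => (mem_annPart.1 hz).1
    have hdT : Dep (edgesIn T) (fun ω => XC 0 m R (ω ∩ edgesIn T)) := by
      intro ω
      simp only [inter_assoc, inter_self]
    have hdA : Dep (edgesIn A) (fun ω => Cross (R + 1) (3 * (R + 1)) (ω ∩ edgesIn A)) := by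
      intro ω
      simp only [inter_assoc, inter_self]
    have e : ((rad m (k + 1) : ℕ) : ℤ) = 3 * ((R : ℤ) + 1) := by
      show ((3 * (rad m k + 1) : ℕ) : ℤ) = _
      push_cast
      rw [hR]
    have h1 : P (edgesIn S) (fun ω => XC 0 m R (ω ∩ edgesIn T)) ≤ P (edgesIn S) (XC 0 m R) :=
      P_mono fun ω _ hc => xc_up _ _ _ _ _ inter_subset_left hc
    have h2 : P (edgesIn S) (fun ω => Cross (R + 1) (3 * (R + 1)) (ω ∩ edgesIn A)) ≤ 1 - q := by
      have g1 := perc_restrict hAS (Cross (R + 1) (3 * (R + 1)))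
      rw [Pool.Agent.Helper69.RSW.perc_half_eq, Pool.Agent.Helper69.RSW.perc_half_eq] at g1
      rw [g1]
      have g2 : P (edgesIn A) (Cross (R + 1) (3 * (R + 1))) ≤
          P (edgesIn (fullAnn (R + 1) (3 * (R + 1)))) (Cross (R + 1) (3 * (R + 1))) := by
        apply P_enlarge (edgesIn_mono ?_) (cross_up _ _)
        intro z hz
        rw [hA, mem_annPart] at hz
        rw [mem_fullAnn]
        exact hz.2
      refine g2.trans ?_
      have g3 := h (R + 1) (by omega)
      unfold crF at g3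
      rw [Pool.Agent.Helper69.RSW.perc_half_eq] at g3
      push_cast at g3
      exact g3
    calc P (edgesIn S) (XC 0 m (rad m (k + 1)))
        ≤ P (edgesIn S) (fun ω => XC 0 m R (ω ∩ edgesIn T) ∧
          Cross (R + 1) (3 * (R + 1)) (ω ∩ edgesIn A)) := by
          apply P_mono
          intro ω hω hc
          rw [e] at hc
          exact xc_step hmR (by omega) hω hc
      _ = P (edgesIn S) (fun ω => XC 0 m R (ω ∩ edgesIn T)) *
          P (edgesIn S) (fun ω => Cross (R + 1) (3 * (R + 1)) (ω ∩ edgesIn A)) :=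
          P_indep (edgesIn_mono hTS) (edgesIn_mono hAS) (edgesIn_disjoint hd) hdT hdA
      _ ≤ (1 - q) ^ k * (1 - q) := by
          apply mul_le_mul (h1.trans ih) h2 (P_nonneg _ _)
          exact pow_nonneg (by linarith) _
      _ = _ := (pow_succ _ _).symm

/-- **Many scales**: for every centre and every domain -/
theorem xc_scales : ∃ q : ℝ, 0 < q ∧ q ≤ 1 ∧ ∀ (S : Finset (ℤ × ℤ)) (c : ℤ × ℤ) (m k : ℕ) (n : ℤ),
    1 ≤ m → 6 ^ k * (m : ℤ) ≤ n → ∀ F ⊆ edgesIn S, P F (XC c m n) ≤ (1 - q) ^ k := by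
  obtain ⟨q, hq, hq1, h⟩ := crF_le
  refine ⟨q, hq, hq1, ?_⟩
  intro S c m k n hm hn F hF
  classical
  have h0 : ((rad m k : ℕ) : ℤ) ≤ n := le_trans (by exact_mod_cast rad_le hm k) hn
  refine (P_enlarge hF (xc_up _ _ _)).trans ?_
  refine (P_mono fun ω _ hc => xc_anti h0 hc).trans ?_
  -- translation
  have h1 := perc_half_map (transl_iso c) (S.map (transl c).symm.toEmbedding)
    (XC c m (rad m k))
  have h2 : (S.map (transl c).symm.toEmbedding).map (transl c).toEmbedding = S := by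
    ext z
    rw [mem_map_equiv, mem_map_equiv]
    simp
  rw [h2, Pool.Agent.Helper69.RSW.perc_half_eq, Pool.Agent.Helper69.RSW.perc_half_eq] at h1
  rw [h1]
  refine le_trans (P_mono fun ω _ hc => ?_) (xc_rad hq1 h (S.map (transl c).symm.toEmbedding) m k)
  obtain ⟨u, z, g1, g2, g3⟩ := hc
  have e1 : ∀ v : ℤ × ℤ, transl c (v - c) = v := by
    intro v
    simp [transl]
  refine ⟨u - c, z - c, by rw [sub_zero]; exact g1, by rw [sub_zero]; exact g2, ?_⟩
  rw [← e1 u, ← e1 z] at g3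
  exact joined_map.1 g3

end H47Perc.JN
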