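import Pool.Agent.Helper32.J.Arm
import Pool.Agent.Helper53.J.Defs

/-!
The T-junction: the crossing probability is small if the upper leg is narrow (RSW).
-/

set_option autoImplicit false

namespace H47Perc.JN
open Finset Filter Topology SimpleGraph H47Perc H47Perc.DS H47Perc.SL
open Pool.Agent.Helper69.RSW (Up P_restrict P_congr P_mono Dep P P_indep P_nonneg P_le_one)

lemma left_jE_sub (i L h M : ℤ) : jE i L h M ⊆ edgesIn (dom i L h M) := by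
  classical
  unfold jE
  exact filter_subset _ _

/-- the crossing contains a connection from scale `i` to scale `max (L - i) h` -/
lemma xc_of_crJ {i L h M x0 m n : ℤ} (hi : 0 ≤ i) (_hh : 0 ≤ h) (hx : 2 * x0 ≤ i + h + 1)
    (hx' : i + h ≤ 2 * x0) (hm : i + 2 ≤ m) (hn : 2 * n ≤ L - i ∨ 2 * n ≤ h - 1)
    (hL : i < L ∨ 0 < h) {ω : Finset (Sym2 (ℤ × ℤ))} (hω : ω ⊆ jE i L h M) (h0 : CrJ i L h ω) :
    XC (x0, i - x0) m n ω := by
  classical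
  obtain ⟨z, z', h1, h2, h3⟩ := h0
  have hω' : ω ⊆ edgesIn (dom i L h M) := hω.trans (left_jE_sub _ _ _ _)
  have h1a : z.1 + z.2 = i := h1.1
  have h1b : h + 1 ≤ z.1 - z.2 := h1.2
  have h2' : (z'.1 + z'.2 = L ∧ z'.1 - z'.2 ≤ 1) ∨ (L ≤ z'.1 + z'.2 ∧ z'.1 - z'.2 = 1) := h2
  have hne : z ≠ z' := by
    rintro rfl
    omega
  have hz : z ∈ dom i L h M := mem_of_joined_ne hω' h3 hne
  set T : Finset (ℤ × ℤ) := (dom i L h M).filter (fun v => v.1 + v.2 ≤ i ∧ h + 1 ≤ v.1 - v.2)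
    with hT
  obtain ⟨w, w', w1, w2, w3, w4, w5, w6⟩ := joined_exit (T := T) hω' h3
    (by rw [hT, mem_filter]; exact ⟨hz, h1a.le, h1b⟩)
    (by rw [hT, mem_filter]; rintro ⟨_, hh⟩; omega)
  rw [hT, mem_filter] at w1 w2
  have w1' := mem_dom.1 w1.1
  have w3' := mem_dom.1 w3
  have w7 : ¬ (w'.1 + w'.2 ≤ i ∧ h + 1 ≤ w'.1 - w'.2) := fun hc => w2 ⟨w3, hc⟩
  have g1 := adj_sum w4
  have g2 := adj_level w4
  obtain ⟨g3, g4, g5⟩ := w1'.1
  obtain ⟨g6, g7, g8⟩ := w3'.1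
  refine ⟨w, z', ?_, ?_, joined_trans (joined_symm (joined_mono inter_subset_left w6)) h3⟩
  · rw [nrm_le]
    simp only [Prod.fst_sub, Prod.snd_sub, abs_le]
    omega
  · rw [le_nrm]
    simp only [Prod.fst_sub, Prod.snd_sub, le_abs]
    omega

theorem left_scales : ∃ q : ℝ, 0 < q ∧ q ≤ 1 ∧ ∀ (i L h M : ℤ) (k : ℕ), 0 ≤ i → 0 ≤ h →
    (i < L ∨ 0 < h) → (2 * (6 ^ k * (i + 2)) ≤ L - i ∨ 2 * (6 ^ k * (i + 2)) ≤ h - 1) →
    pJ i L h M ≤ (1 - q) ^ k := by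
  obtain ⟨q, hq, hq1, H⟩ := xc_scales
  refine ⟨q, hq, hq1, ?_⟩
  intro i L h M k hi hh hL hk
  obtain ⟨m, hm⟩ := Int.eq_ofNat_of_zero_le (show 0 ≤ i + 2 by omega)
  unfold pJ
  refine le_trans (P_mono fun ω hω hc => ?_)
    (H (dom i L h M) ((i + h + 1) / 2, i - (i + h + 1) / 2) m k (6 ^ k * (m : ℤ)) (by omega) le_rfl
      (jE i L h M) (left_jE_sub _ _ _ _))
  rw [hm] at hk
  exact xc_of_crJ hi hh (by omega) (by omega) hm.le hk hL hω hc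

theorem left_bound {ε : ℝ} (hε : 0 < ε) : ∃ η : ℝ, 0 < η ∧ ∃ N : ℕ, ∀ i L h M : ℕ, N ≤ L →
    ((i : ℝ) ≤ η * L ∨ (L ≤ h ∧ (i : ℝ) ≤ η * h)) → pJ i L h M ≤ ε := by
  obtain ⟨q, hq, hq1, H⟩ := left_scales
  obtain ⟨k, hk⟩ := exists_pow_lt_of_lt_one hε (show 1 - q < 1 by linarith)
  have h6 : (1 : ℝ) ≤ 6 ^ k := one_le_pow₀ (by norm_num)
  refine ⟨1 / (6 * 6 ^ k), by positivity, 10 * 6 ^ k, ?_⟩
  intro i L h M hN hc
  refine le_trans ?_ hk.le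
  have hN' : (10 : ℝ) * 6 ^ k ≤ L := by exact_mod_cast hN
  have hdiv : ∀ x : ℝ, 1 / (6 * 6 ^ k) * x * (6 * 6 ^ k) = x := by
    intro x
    field_simp
  rcases hc with hc | ⟨hLh, hc⟩
  · have e1 : (i : ℝ) * (6 * 6 ^ k) ≤ L := by
      rw [← hdiv (L : ℝ)]
      exact mul_le_mul_of_nonneg_right hc (by positivity)
    have e2 : (i : ℝ) ≤ 6 ^ k * i := le_mul_of_one_le_left (Nat.cast_nonneg i) h6
    have e3 : (2 : ℝ) * (6 ^ k * (i + 2)) ≤ L - i := by nlinarith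
    have e4 : (i : ℝ) < L := by nlinarith
    apply H i L h M k (by positivity) (by positivity) (Or.inl (by exact_mod_cast e4)) (Or.inl ?_)
    exact_mod_cast e3
  · have e0 : (L : ℝ) ≤ h := by exact_mod_cast hLh
    have e1 : (i : ℝ) * (6 * 6 ^ k) ≤ h := by
      rw [← hdiv (h : ℝ)]
      exact mul_le_mul_of_nonneg_right hc (by positivity)
    have e3 : (2 : ℝ) * (6 ^ k * (i + 2)) ≤ h - 1 := by nlinarith
    have e4 : (0 : ℝ) < h := by nlinarith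
    apply H i L h M k (by positivity) (by positivity) (Or.inr (by exact_mod_cast e4)) (Or.inr ?_)
    exact_mod_cast e3

end H47Perc.JN
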