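import Pool.Agent.Helper32.J.Left

/-!
The T-junction: the crossing probability is close to one if the right leg is narrow and the upper
leg is (almost) as wide as the lower leg (RSW).
-/

set_option autoImplicit false

namespace H47Perc.JN
open Finset Filter Topology SimpleGraph H47Perc H47Perc.DS H47Perc.SL
open Pool.Agent.Helper69.RSW (Up P_restrict P_congr P_mono Dep P P_indep P_nonneg P_le_one P_compl)

/-- the two rectangle crossings at scale `m` around `(X, Y)` -/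
def HV (X Y m : ℤ) (ω : Finset (Sym2 (ℤ × ℤ))) : Prop :=
  LR (X - 3 * m) (X + 3 * m) (Y - 3 * m) (Y - m)
    (ω ∩ edgesIn (box (X - 3 * m) (X + 3 * m) (Y - 3 * m) (Y - m))) ∧
  BT (X - 3 * m) (X - m) (Y - 3 * m) (Y + 3 * m)
    (ω ∩ edgesIn (box (X - 3 * m) (X - m) (Y - 3 * m) (Y + 3 * m)))

/-- the two crossings force a connection of the source and the target -/
lemma crJ_of_HV {i L h M X Y m U : ℤ} (hm : 1 ≤ m) (hXY : X + Y = U) (hU1 : i < U) (hU2 : L < U)
    (hU3 : U - i + 1 ≤ 2 * m) (hU4 : 6 * m ≤ U) (hW1 : h + 1 ≤ X - Y) (hW2 : X - Y ≤ h + 2)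
    (hh : 0 ≤ h) (hh2 : h ≤ 2 * m) (hM : U + 6 * m + h + 2 ≤ M) {ω : Finset (Sym2 (ℤ × ℤ))}
    (H : HV X Y m ω) : CrJ i L h (ω ∩ jE i L h M) := by
  classical
  obtain ⟨⟨ya, yb, a1, a2, a3, a4, hH⟩, ⟨xa, xb, b1, b2, b3, b4, hV⟩⟩ := H
  set HB := box (X - 3 * m) (X + 3 * m) (Y - 3 * m) (Y - m) with hHB
  set VB := box (X - 3 * m) (X - m) (Y - 3 * m) (Y + 3 * m) with hVB
  set Q := box (X - 3 * m) (X - m) (Y - 3 * m) (Y - m) with hQ
  set D1 : Finset (ℤ × ℤ) := HB.filter (fun v => v.1 + v.2 ≤ i) with hD1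
  have mD1 : ∀ v : ℤ × ℤ, v ∈ D1 ↔ (X - 3 * m ≤ v.1 ∧ v.1 ≤ X + 3 * m ∧ Y - 3 * m ≤ v.2 ∧
      v.2 ≤ Y - m) ∧ v.1 + v.2 ≤ i := by
    intro v
    rw [hD1, mem_filter, hHB, mem_box]
  -- the lower part of the vertical crossing
  obtain ⟨t, ht1, ht2⟩ : ∃ t : ℤ × ℤ, t.2 = Y - m ∧ Joined (ω ∩ edgesIn Q) (xa, Y - 3 * m) t := by
    obtain ⟨w, w', w1, w2, w3, w4, w5, w6⟩ := joined_exit
      (T := box (X - 3 * m) (X - m) (Y - 3 * m) (Y - m - 1)) (inter_subset_right (s₁ := ω)) hV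
      (by rw [mem_box]; simp only; omega) (by rw [mem_box]; simp only; omega)
    rw [mem_box] at w1 w2
    have w3' := w3
    rw [hVB, mem_box] at w3'
    have w7 := adj_dist w4
    rw [abs_le, abs_le] at w7
    refine ⟨w', by omega, joined_trans (joined_mono ?_ w6) (joined_edge ?_)⟩
    · intro e he
      rw [mem_inter, mem_inter] at he
      rw [mem_inter]
      exact ⟨he.1.1, edgesIn_mono (box_mono le_rfl le_rfl le_rfl (by omega)) he.2⟩
    · rw [mem_inter] at w5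
      rw [mem_inter, mem_edgesIn, hQ, mem_box, mem_box]
      exact ⟨w5.1, by omega, by omega, w4⟩
  have hQD : Q ⊆ D1 := by
    intro v hv
    rw [hQ, mem_box] at hv
    rw [mD1]
    omega
  have htQ : t ∈ Q := by
    apply mem_of_joined_ne inter_subset_right (joined_symm ht2)
    rintro rfl
    simp only at ht1
    omega
  -- the horizontal crossing meets it
  have c1 : Joined (ω ∩ edgesIn D1) (X - 3 * m, ya) t := by
    apply hcross (D := D1) (T := Q) (v := (xa, Y - 3 * m)) ?_ hH ?_ ?_ hQD (joined_symm ht2) htQ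
    · intro w hw
      rw [hQ, mem_box] at hw
      omega
    · simp only; omega
    · omega
    · simp only; omega
    · intro w hw hw' w' e1 e2 e3
      rw [mem_box] at hw
      rw [mD1] at hw' ⊢
      omega
    · rw [mD1]; simp only; omega
    · rw [mem_box]; simp only; omega
  -- the horizontal crossing reaches the source
  obtain ⟨s, hs1, hs2, hs3⟩ : ∃ s : ℤ × ℤ, Src i h s ∧ s ∈ D1 ∧
      Joined (ω ∩ edgesIn D1) (X - 3 * m, ya) s := by
    obtain ⟨w, w', w1, w2, w3, w4, w5, w6⟩ := joined_exit (T := D1)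
      (inter_subset_right (s₁ := ω)) hH (by rw [mD1]; simp only; omega)
      (by rw [mD1]; simp only; omega)
    have w1' := w1
    rw [mD1] at w1' w2
    have w3' := w3
    rw [hHB, mem_box] at w3'
    have g1 := adj_sum w4
    refine ⟨w, ⟨by omega, by omega⟩, w1, joined_mono ?_ w6⟩
    intro e he
    rw [mem_inter, mem_inter] at he
    rw [mem_inter]
    exact ⟨he.1.1, he.2⟩
  -- the whole path
  set G := D1 ∪ VB with hG
  have c2 : Joined (ω ∩ edgesIn G) s (xb, Y + 3 * m) := by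
    have s1 : ω ∩ edgesIn D1 ⊆ ω ∩ edgesIn G :=
      inter_subset_inter_left (edgesIn_mono subset_union_left)
    have s2 : ω ∩ edgesIn VB ⊆ ω ∩ edgesIn G :=
      inter_subset_inter_left (edgesIn_mono subset_union_right)
    have s3 : ω ∩ edgesIn Q ⊆ ω ∩ edgesIn G :=
      inter_subset_inter_left (edgesIn_mono (hQD.trans subset_union_left))
    exact joined_trans (joined_symm (joined_mono s1 hs3)) (joined_trans (joined_mono s1 c1)
      (joined_trans (joined_symm (joined_mono s3 ht2)) (joined_mono s2 hV)))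
  obtain ⟨hsa, hsb⟩ := hs1
  set T : Finset (ℤ × ℤ) := G.filter (fun v => ¬ (L < v.1 + v.2 ∧ v.1 - v.2 < 1)) with hT
  obtain ⟨a, a', g1, g2, g3, g4, g5, g6⟩ := joined_exit (T := T) (inter_subset_right (s₁ := ω)) c2
    (by
      rw [hT, mem_filter]
      exact ⟨mem_union_left _ hs2, by omega⟩)
    (by
      rw [hT, mem_filter]
      rintro ⟨_, hc⟩
      apply hc
      simp only
      omega)
  rw [hT, mem_filter] at g1 g2
  have g7 : L < a'.1 + a'.2 ∧ a'.1 - a'.2 < 1 := by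
    by_contra hc
    exact g2 ⟨g3, hc⟩
  have g8 := adj_sum g4
  have g9 := adj_level g4
  have g10 := g1.2
  have hmG : ∀ v ∈ G, ((X - 3 * m ≤ v.1 ∧ v.1 ≤ X + 3 * m ∧ Y - 3 * m ≤ v.2 ∧ v.2 ≤ Y - m) ∧
      v.1 + v.2 ≤ i) ∨ (X - 3 * m ≤ v.1 ∧ v.1 ≤ X - m ∧ Y - 3 * m ≤ v.2 ∧ v.2 ≤ Y + 3 * m) := by
    intro v hv
    rw [hG, mem_union, mD1, hVB, mem_box] at hv
    tauto
  refine ⟨s, a, ⟨hsa, hsb⟩, ?_, joined_mono ?_ g6⟩
  · unfold Tg
    omega
  · intro e he
    rw [mem_inter, mem_inter] at he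
    obtain ⟨⟨he1, -⟩, he2⟩ := he
    rw [mem_inter]
    refine ⟨he1, ?_⟩
    unfold jE
    rw [mem_filter]
    constructor
    · refine edgesIn_mono ?_ he2
      intro v hv
      rw [hT, mem_filter] at hv
      rw [mem_dom]
      have hv1 := hmG v hv.1
      have hv2 := hv.2
      refine ⟨⟨?_, ?_, hv2⟩, ?_, ?_⟩
      · omega
      · omega
      · omega
      · rw [abs_le]; omega
    · rintro ⟨p, p', rfl, k1, k2, k3, k4⟩
      rw [mem_edgesIn, hT, mem_filter, mem_filter] at he2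
      have hv1 := hmG p he2.1.1
      have hv2 := hmG p' he2.2.1.1
      omega


lemma hv_up (X Y m : ℤ) : Up (HV X Y m) :=
  (up_inter_LR _ _ _ _ _).and (up_inter_BT _ _ _ _ _)

/-- the two rectangles -/
noncomputable def hvB (X Y m : ℤ) : Finset (ℤ × ℤ) :=
  box (X - 3 * m) (X + 3 * m) (Y - 3 * m) (Y - m) ∪ box (X - 3 * m) (X - m) (Y - 3 * m) (Y + 3 * m)

lemma hv_dep (X Y m : ℤ) : Dep (edgesIn (hvB X Y m)) (HV X Y m) := by
  intro S
  unfold HV hvB
  rw [inter_assoc, inter_assoc, inter_eq_right.2 (edgesIn_mono subset_union_left),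
    inter_eq_right.2 (edgesIn_mono subset_union_right)]

lemma hvB_disj {X Y m m' : ℤ} (_hm : 0 ≤ m) (h : 3 * m < m') :
    Disjoint (edgesIn (hvB X Y m)) (edgesIn (hvB X Y m')) := by
  apply edgesIn_disjoint
  rw [Finset.disjoint_left]
  intro v hv hv'
  unfold hvB at hv hv'
  rw [mem_union, mem_box, mem_box] at hv hv'
  omega

lemma hv_ge : ∃ c : ℝ, 0 < c ∧ c ≤ 1 ∧ ∀ (X Y : ℤ) (m : ℕ), 1 ≤ m →
    ∀ F : Finset (Sym2 (ℤ × ℤ)), edgesIn (hvB X Y m) ⊆ F → c ≤ P F (HV X Y m) := by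
  obtain ⟨c, hc, h⟩ := H46.rsw_pLR 7
  set d := min c 1 with hd
  have hd0 : 0 < d := lt_min hc one_pos
  have hd1 : d ≤ 1 := min_le_right _ _
  refine ⟨d * d, mul_pos hd0 hd0, mul_le_one₀ hd1 hd0.le hd1, ?_⟩
  intro X Y m hm F hF
  have h1 : d ≤ pLR (6 * m) (2 * m) := by
    refine (min_le_left c 1).trans ((h (2 * m) (by omega)).trans ?_)
    push_cast
    apply pLR_anti
    · omega
    · omega
  have h2 : P F (fun ω => LR (X - 3 * m) (X + 3 * m) (Y - 3 * m) (Y - m)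
      (ω ∩ edgesIn (box (X - 3 * m) (X + 3 * m) (Y - 3 * m) (Y - m)))) = pLR (6 * m) (2 * m) := by
    have hsub : edgesIn (box (X - 3 * m) (X + 3 * m) (Y - 3 * m) (Y - m)) ⊆ F :=
      (edgesIn_mono subset_union_left).trans hF
    have hD : Dep (edgesIn (box (X - 3 * (m:ℤ)) (X + 3 * m) (Y - 3 * m) (Y - m)))
        (fun ω => LR (X - 3 * m) (X + 3 * m) (Y - 3 * m) (Y - m)
          (ω ∩ edgesIn (box (X - 3 * m) (X + 3 * m) (Y - 3 * m) (Y - m)))) := by
      intro S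
      simp only [inter_assoc, inter_self]
    have e7 := perc_LR (X - 3 * (m:ℤ)) (X + 3 * m) (Y - 3 * m) (Y - m)
    rw [Pool.Agent.Helper69.RSW.perc_half_eq,
      show X + 3 * (m:ℤ) - (X - 3 * m) = 6 * m by ring,
      show Y - (m:ℤ) - (Y - 3 * m) = 2 * m by ring] at e7
    rw [P_restrict hsub hD, ← e7]
    apply P_congr
    intro S hS
    rw [inter_eq_left.2 hS]
  have h3 : P F (fun ω => BT (X - 3 * m) (X - m) (Y - 3 * m) (Y + 3 * m)
      (ω ∩ edgesIn (box (X - 3 * m) (X - m) (Y - 3 * m) (Y + 3 * m)))) = pLR (6 * m) (2 * m) := by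
    have hsub : edgesIn (box (X - 3 * m) (X - m) (Y - 3 * m) (Y + 3 * m)) ⊆ F :=
      (edgesIn_mono subset_union_right).trans hF
    have hD : Dep (edgesIn (box (X - 3 * (m:ℤ)) (X - m) (Y - 3 * m) (Y + 3 * m)))
        (fun ω => BT (X - 3 * m) (X - m) (Y - 3 * m) (Y + 3 * m)
          (ω ∩ edgesIn (box (X - 3 * m) (X - m) (Y - 3 * m) (Y + 3 * m)))) := by
      intro S
      simp only [inter_assoc, inter_self]
    have e7 := perc_BT (X - 3 * (m:ℤ)) (X - m) (Y - 3 * m) (Y + 3 * m)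
    rw [Pool.Agent.Helper69.RSW.perc_half_eq,
      show Y + 3 * (m:ℤ) - (Y - 3 * m) = 6 * m by ring,
      show X - (m:ℤ) - (X - 3 * m) = 2 * m by ring] at e7
    rw [P_restrict hsub hD, ← e7]
    apply P_congr
    intro S hS
    rw [inter_eq_left.2 hS]
  have h4 := Pool.Agent.Helper69.RSW.harris F
    (up_inter_LR (X - 3 * m) (X + 3 * m) (Y - 3 * m) (Y - m)
      (edgesIn (box (X - 3 * m) (X + 3 * m) (Y - 3 * m) (Y - m))))
    (up_inter_BT (X - 3 * m) (X - m) (Y - 3 * m) (Y + 3 * m)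
      (edgesIn (box (X - 3 * m) (X - m) (Y - 3 * m) (Y + 3 * m))))
  rw [h2, h3] at h4
  refine le_trans ?_ h4
  exact mul_le_mul h1 h1 hd0.le (hd0.le.trans h1)

/-- failure at all scales -/
theorem hv_fail : ∃ c : ℝ, 0 < c ∧ c ≤ 1 ∧ ∀ (X Y : ℤ) (m K : ℕ), 1 ≤ m →
    ∀ F : Finset (Sym2 (ℤ × ℤ)), (∀ k < K, edgesIn (hvB X Y (4 ^ k * m)) ⊆ F) →
    P F (fun ω => ∀ k < K, ¬ HV X Y (4 ^ k * m) ω) ≤ (1 - c) ^ K := by
  classical
  obtain ⟨c, hc, hc1, H⟩ := hv_ge
  refine ⟨c, hc, hc1, ?_⟩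
  intro X Y m K hm F hF
  have hone : ∀ k < K, P F (fun ω => ¬ HV X Y (4 ^ k * m) ω) ≤ 1 - c := by
    intro k hk
    have h1 := H X Y (4 ^ k * m) (Nat.one_le_iff_ne_zero.2 (by positivity)) F
      (by push_cast; exact hF k hk)
    have h2 := P_compl F (HV X Y (4 ^ k * m))
    push_cast at h1
    linarith
  have key : ∀ j ≤ K, P F (fun ω => ∀ k < j, ¬ HV X Y (4 ^ k * m) ω) ≤ (1 - c) ^ j := by
    intro j
    induction j with
    | zero =>
      intro _
      rw [pow_zero]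
      exact P_le_one _ _
    | succ j ih =>
      intro hj
      have e1 : P F (fun ω => ∀ k < j + 1, ¬ HV X Y (4 ^ k * m) ω) =
          P F (fun ω => (∀ k < j, ¬ HV X Y (4 ^ k * m) ω) ∧ ¬ HV X Y (4 ^ j * m) ω) := by
        apply P_congr
        intro S _
        constructor
        · intro h
          exact ⟨fun k hk => h k (by omega), h j (by omega)⟩
        · rintro ⟨h1, h2⟩ k hk
          rcases Nat.lt_succ_iff_lt_or_eq.1 hk with h3 | rfl
          · exact h1 k h3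
          · exact h2
      set G := (range j).biUnion (fun k => edgesIn (hvB X Y (4 ^ k * m))) with hG
      have hsub : G ⊆ F := by
        intro e he
        rw [hG, mem_biUnion] at he
        obtain ⟨k, hk, he⟩ := he
        exact hF k (by rw [mem_range] at hk; omega) he
      have hdep : Dep G (fun ω : Finset (Sym2 (ℤ × ℤ)) => ∀ k < j, ¬ HV X Y (4 ^ k * m) ω) := by
        intro S
        apply forall_congr'
        intro k
        apply forall_congr'
        intro hk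
        have hk' : edgesIn (hvB X Y (4 ^ k * m)) ⊆ G := by
          intro e he
          rw [hG, mem_biUnion]
          exact ⟨k, mem_range.2 hk, he⟩
        have h1 := hv_dep X Y (4 ^ k * m) S
        have h2 := hv_dep X Y (4 ^ k * m) (S ∩ G)
        rw [inter_assoc, inter_eq_right.2 hk'] at h2
        exact not_congr (h1.trans h2.symm)
      have hdepj : Dep (edgesIn (hvB X Y (4 ^ j * m)))
          (fun ω : Finset (Sym2 (ℤ × ℤ)) => ¬ HV X Y (4 ^ j * m) ω) := by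
        intro S
        exact not_congr (hv_dep X Y (4 ^ j * m) S)
      have hdisj : Disjoint G (edgesIn (hvB X Y (4 ^ j * m))) := by
        rw [hG, Finset.disjoint_biUnion_left]
        intro k hk
        apply hvB_disj (by positivity)
        rw [mem_range] at hk
        have h1 : (4 : ℤ) ^ (k + 1) ≤ 4 ^ j := pow_le_pow_right₀ (by norm_num) hk
        have h2 : (0 : ℤ) < 4 ^ k := by positivity
        have h3 : (1 : ℤ) ≤ m := by exact_mod_cast hm
        rw [pow_succ] at h1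
        nlinarith
      rw [e1, P_indep hsub (hF j (by omega)) hdisj hdep hdepj, pow_succ]
      exact mul_le_mul (ih (by omega)) (hone j (by omega)) (P_nonneg _ _)
        (pow_nonneg (by linarith) _)
  exact key K le_rfl

theorem right_scales : ∃ c : ℝ, 0 < c ∧ c ≤ 1 ∧ ∀ (i L h M U : ℤ) (m K : ℕ), 1 ≤ m → 0 ≤ h →
    i < U → L < U → U - i + 1 ≤ 2 * m → h ≤ 2 * m → 6 * (4 ^ K * (m : ℤ)) ≤ U →
    2 * U + h + 2 ≤ M → 1 - (1 - c) ^ K ≤ pJ i L h M := by
  classical
  obtain ⟨c, hc, hc1, H⟩ := hv_fail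
  refine ⟨c, hc, hc1, ?_⟩
  intro i L h M U m K hm hh hU1 hU2 hU3 hh2 hU4 hM
  set X := (U + h + 2) / 2 with hX
  set Y := U - X with hY
  set F := jE i L h M ∪ (range K).biUnion (fun k => edgesIn (hvB X Y (4 ^ k * m))) with hF
  have hm' : (1 : ℤ) ≤ m := by exact_mod_cast hm
  have h1 := H X Y m K hm F (by
    intro k hk e he
    rw [hF, mem_union, mem_biUnion]
    exact Or.inr ⟨k, mem_range.2 hk, he⟩)
  have hD : Dep (jE i L h M) (fun ω : Finset (Sym2 (ℤ × ℤ)) => CrJ i L h (ω ∩ jE i L h M)) := by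
    intro S
    simp only
    rw [inter_assoc, inter_self]
  have h2 : pJ i L h M = P F (fun ω => CrJ i L h (ω ∩ jE i L h M)) := by
    rw [P_restrict subset_union_left hD]
    unfold pJ
    apply P_congr
    intro S hS
    rw [inter_eq_left.2 hS]
  have h3 := P_compl F (fun ω => ∀ k < K, ¬ HV X Y (4 ^ k * m) ω)
  have h4 : P F (fun ω => ¬ ∀ k < K, ¬ HV X Y (4 ^ k * m) ω) ≤
      P F (fun ω => CrJ i L h (ω ∩ jE i L h M)) := by
    apply P_mono
    intro ω _ hc'
    push Not at hc'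
    obtain ⟨k, hk, hc'⟩ := hc'
    have e1 : (1 : ℤ) ≤ 4 ^ k := one_le_pow₀ (by norm_num)
    have e2 : (4 : ℤ) ^ k ≤ 4 ^ K := pow_le_pow_right₀ (by norm_num) hk.le
    have e3 : (m : ℤ) ≤ 4 ^ k * m := by nlinarith
    have e4 : (4 : ℤ) ^ k * m ≤ 4 ^ K * m := by nlinarith
    exact crJ_of_HV (U := U) (by linarith) (by omega) hU1 hU2 (by linarith) (by linarith) (by omega)
      (by omega) hh (by linarith) (by linarith) hc'
  rw [h2]
  linarith

theorem right_bound {ε : ℝ} (hε : 0 < ε) : ∃ η : ℝ, 0 < η ∧ ∃ N : ℕ, ∀ i L h : ℕ, N ≤ L →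
    (h : ℝ) ≤ η * L → (1 - η) * L ≤ i → ∀ᶠ M : ℕ in atTop, 1 - ε ≤ pJ i L h M := by
  obtain ⟨c, hc, hc1, H⟩ := right_scales
  obtain ⟨K, hK⟩ := exists_pow_lt_of_lt_one hε (show 1 - c < 1 by linarith)
  have h4 : (1 : ℝ) ≤ 4 ^ K := one_le_pow₀ (by norm_num)
  have hηp : (0 : ℝ) < 1 / (12 * 4 ^ K) := by positivity
  refine ⟨1 / (12 * 4 ^ K), hηp, 48 * 4 ^ K, ?_⟩
  intro i L h hN hh hi
  have hN' : (48 : ℝ) * 4 ^ K ≤ L := by exact_mod_cast hN
  set m : ℕ := ⌈1 / (12 * 4 ^ K) * (L : ℝ)⌉₊ + 2 with hm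
  have hm1 : 1 / (12 * 4 ^ K) * (L : ℝ) + 2 ≤ m := by
    rw [hm]
    push_cast
    linarith [Nat.le_ceil (1 / (12 * 4 ^ K) * (L : ℝ))]
  have hm2 : (m : ℝ) ≤ 1 / (12 * 4 ^ K) * (L : ℝ) + 3 := by
    rw [hm]
    push_cast
    linarith [(Nat.ceil_lt_add_one (show 0 ≤ 1 / (12 * 4 ^ K) * (L : ℝ) by positivity)).le]
  have hd : 6 * (4 ^ K * (1 / (12 * 4 ^ K) * (L : ℝ))) = L / 2 := by
    field_simp
    ring
  have hL0 : 0 ≤ 1 / (12 * 4 ^ K) * (L : ℝ) := by positivity
  set U : ℕ := max i L + 1 with hU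
  filter_upwards [eventually_ge_atTop (2 * U + h + 2)] with M hM
  refine le_trans ?_ (H i L h M U m K (by omega) (by positivity) ?_ ?_ ?_ ?_ ?_ (by exact_mod_cast hM))
  · linarith
  · push_cast [hU]
    exact_mod_cast Nat.lt_succ_of_le (le_max_left i L)
  · push_cast [hU]
    exact_mod_cast Nat.lt_succ_of_le (le_max_right i L)
  · have : ((U : ℕ) : ℝ) - i + 1 ≤ 2 * m := by
      rw [hU]
      push_cast
      rcases le_total (i : ℝ) L with h | h
      · rw [max_eq_right h]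
        nlinarith
      · rw [max_eq_left h]
        nlinarith
    exact_mod_cast this
  · have : (h : ℝ) ≤ 2 * m := by linarith
    exact_mod_cast this
  · have : 6 * (4 ^ K * (m : ℝ)) ≤ U := by
      have e1 : (L : ℝ) ≤ U := by
        rw [hU]
        push_cast
        linarith [le_max_right (i : ℝ) L]
      nlinarith
    exact_mod_cast this

end H47Perc.JN
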