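import Pool.Agent.Helper32.J.Uniform

/-!
The T-junction: uniform convergence of the crossing probabilities for all parities, from the exact
values and their limits for odd parameters, without the condition `i ≤ L`.
-/

set_option autoImplicit false

namespace H47Perc.JN
open Finset Filter Topology SimpleGraph H47Perc H47Perc.DS H47Perc.SL
open Pool.Agent.Helper69.RSW (P P_le_one P_nonneg)

/-- exponentially small dependence on the size of the truncation -/
def TruncAll : Prop := ∃ c : ℝ, 0 < c ∧ ∃ C : ℝ, 0 < C ∧ ∀ i L h : ℤ, 1 ≤ i → 1 ≤ L → 1 ≤ h →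
  ∀ (K : ℕ) (M : ℤ), K * (i + L + h) ≤ M →
    pJ i L h M - pJ i L h (K * (i + L + h)) ≤ C * Real.exp (-(c * K))

theorem truncAll : TruncAll := pJ_trunc'

lemma lo_add_one_of_even {k : ℕ} (hk : 1 ≤ k + k) : ((lo (k + k) : ℕ) : ℤ) + 1 = ((k + k : ℕ) : ℤ) := by
  unfold lo
  omega

lemma lo_of_odd (k : ℕ) : lo (2 * k + 1) = 2 * k + 1 := by
  unfold lo
  omega

lemma up_of_even (k : ℕ) : ((up (k + k) : ℕ) : ℤ) = ((k + k : ℕ) : ℤ) + 1 := by
  unfold up
  omega

lemma up_of_odd (k : ℕ) : up (2 * k + 1) = 2 * k + 1 := by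
  unfold up
  omega

/-- comparison with the next odd parameters, upper bound -/
lemma pJ_le_lo' {i L h M n : ℕ} (hi : 1 ≤ i) (hL : 1 ≤ L) (hh : 1 ≤ h) (hn : 2 * n ≤ h) :
    pJ i L h M ≤ pJ (lo i : ℕ) (lo L : ℕ) (up h : ℕ) M + 2 * pi1 n := by
  have h0 := pi1_nonneg n
  have e1 : pJ i L h M ≤ pJ (lo i : ℕ) L h M + pi1 n := by
    rcases Nat.even_or_odd i with hk | hk
    · obtain ⟨k, rfl⟩ := hk
      rw [← lo_add_one_of_even hi]
      exact pJ_i' (by exact_mod_cast hh) (by exact_mod_cast hn)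
    · obtain ⟨k, rfl⟩ := hk
      rw [lo_of_odd]
      linarith
  have e2 : pJ (lo i : ℕ) L h M ≤ pJ (lo i : ℕ) (lo L : ℕ) h M := by
    rcases Nat.even_or_odd L with hk | hk
    · obtain ⟨k, rfl⟩ := hk
      rw [← lo_add_one_of_even hL]
      exact pJ_L' (by exact_mod_cast hh)
    · obtain ⟨k, rfl⟩ := hk
      rw [lo_of_odd]
  have e3 : pJ (lo i : ℕ) (lo L : ℕ) h M ≤ pJ (lo i : ℕ) (lo L : ℕ) (up h : ℕ) M + pi1 n := by
    rcases Nat.even_or_odd h with hk | hk
    · obtain ⟨k, rfl⟩ := hk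
      rw [up_of_even]
      exact pJ_h' (by exact_mod_cast hn)
    · obtain ⟨k, rfl⟩ := hk
      rw [up_of_odd]
      linarith
  linarith

/-- comparison with the next odd parameters, lower bound -/
lemma pJ_ge_up' {i L h M n : ℕ} (hh : 1 ≤ h) (hn : 2 * n + 1 ≤ h) :
    pJ (up i : ℕ) (up L : ℕ) (lo h : ℕ) M ≤ pJ i L h M + 2 * pi1 n := by
  have h0 := pi1_nonneg n
  have hn' : 2 * n ≤ lo h := by unfold lo; omega
  have hlo : 1 ≤ lo h := one_le_lo h
  have e1 : pJ (up i : ℕ) (up L : ℕ) (lo h : ℕ) M ≤ pJ i (up L : ℕ) (lo h : ℕ) M + pi1 n := by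
    rcases Nat.even_or_odd i with hk | hk
    · obtain ⟨k, rfl⟩ := hk
      rw [up_of_even]
      exact pJ_i' (by exact_mod_cast hlo) (by exact_mod_cast hn')
    · obtain ⟨k, rfl⟩ := hk
      rw [up_of_odd]
      linarith
  have e2 : pJ i (up L : ℕ) (lo h : ℕ) M ≤ pJ i L (lo h : ℕ) M := by
    rcases Nat.even_or_odd L with hk | hk
    · obtain ⟨k, rfl⟩ := hk
      rw [up_of_even]
      exact pJ_L' (by exact_mod_cast hlo)
    · obtain ⟨k, rfl⟩ := hk
      rw [up_of_odd]
  have e3 : pJ i L (lo h : ℕ) M ≤ pJ i L h M + pi1 n := by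
    rcases Nat.even_or_odd h with hk | hk
    · obtain ⟨k, rfl⟩ := hk
      rw [← lo_add_one_of_even hh]
      exact pJ_h' (by exact_mod_cast hn')
    · obtain ⟨k, rfl⟩ := hk
      rw [lo_of_odd]
      linarith
  linarith

/-- exponentially small dependence on the size of the truncation -/
theorem pJ_height' (HT : TruncAll) : ∃ c : ℝ, 0 < c ∧ ∃ C : ℝ, 0 < C ∧ ∀ i L h M M' : ℕ, 1 ≤ i →
    1 ≤ L → 1 ≤ h → M ≤ M' →
      pJ i L h M' - pJ i L h M ≤ C * Real.exp (-(c * (M / (i + L + h)))) := by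
  obtain ⟨c, hc, C, hC, ht⟩ := HT
  refine ⟨c, hc, C * Real.exp c, by positivity, fun i L h M M' hi hL hh hMM => ?_⟩
  have hL0 : 0 < i + L + h := by omega
  set K : ℕ := M / (i + L + h) with hK
  have hKM : K * (i + L + h) ≤ M := Nat.div_mul_le_self M (i + L + h)
  have h2 : pJ i L h (K * (i + L + h) : ℕ) ≤ pJ i L h M := pJ_mono (by exact_mod_cast hKM)
  have h3 : pJ i L h M' - pJ i L h (K * (i + L + h) : ℕ) ≤ C * Real.exp (-(c * K)) := by
    have := ht (i : ℤ) (L : ℤ) (h : ℤ) (by exact_mod_cast hi) (by exact_mod_cast hL)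
      (by exact_mod_cast hh) K M' (by exact_mod_cast hKM.trans hMM)
    push_cast
    exact this
  have h4 : Real.exp (-(c * K)) ≤ Real.exp c * Real.exp (-(c * (M / (i + L + h)))) := by
    rw [← Real.exp_add]
    apply Real.exp_le_exp.2
    have h5 : (M : ℝ) / (i + L + h) ≤ K + 1 := by
      have h7 : (0 : ℝ) < i + L + h := by exact_mod_cast hL0
      rw [div_le_iff₀ h7]
      have h6 : M < (K + 1) * (i + L + h) := by
        rw [hK]
        exact Nat.lt_mul_of_div_lt (Nat.lt_succ_self _) hL0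
      exact_mod_cast h6.le
    nlinarith
  calc pJ i L h M' - pJ i L h M ≤ pJ i L h M' - pJ i L h (K * (i + L + h) : ℕ) := by linarith
    _ ≤ C * Real.exp (-(c * K)) := h3
    _ ≤ C * (Real.exp c * Real.exp (-(c * (M / (i + L + h))))) := by gcongr
    _ = _ := by ring

/-- two sizes -/
lemma pJ_two' {c C : ℝ} (hC : 0 < C)
    (hb : ∀ i L h M M' : ℕ, 1 ≤ i → 1 ≤ L → 1 ≤ h → M ≤ M' →
      pJ i L h M' - pJ i L h M ≤ C * Real.exp (-(c * (M / (i + L + h))))) {i L h M M' : ℕ}
    (hi : 1 ≤ i) (hL : 1 ≤ L) (hh : 1 ≤ h) : |pJ i L h M - pJ i L h M'| ≤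
      C * Real.exp (-(c * (M / (i + L + h)))) + C * Real.exp (-(c * (M' / (i + L + h)))) := by
  have e1 : 0 ≤ C * Real.exp (-(c * (M / (i + L + h)))) := by positivity
  have e2 : 0 ≤ C * Real.exp (-(c * (M' / (i + L + h)))) := by positivity
  rcases le_total M M' with hM | hM
  · have h1 := hb i L h M M' hi hL hh hM
    have h2 := pJ_mono_nat (i := i) (L := L) (h := h) hM
    rw [abs_le]
    constructor <;> linarith
  · have h1 := hb i L h M' M hi hL hh hM
    have h2 := pJ_mono_nat (i := i) (L := L) (h := h) hM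
    rw [abs_le]
    constructor <;> linarith

/-- the exact values up to an exponentially small error -/
theorem pJ_bound' {c C : ℝ}
    (hb : ∀ i L h M M' : ℕ, 1 ≤ i → 1 ≤ L → 1 ≤ h → M ≤ M' →
      pJ i L h M' - pJ i L h M ≤ C * Real.exp (-(c * (M / (i + L + h))))) {i L h : ℕ} {v : ℝ}
    (hi : 1 ≤ i) (hL : 1 ≤ L) (hh : 1 ≤ h)
    (H1 : Tendsto (fun M : ℕ => pJ i L h M) atTop (𝓝 v)) (M : ℕ) :
    |pJ i L h M - v| ≤ C * Real.exp (-(c * (M / (i + L + h)))) := by
  have h1 : pJ i L h M ≤ v :=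
    (show Monotone (fun M : ℕ => pJ i L h M) from fun _ _ hM => pJ_mono_nat hM).ge_of_tendsto H1 M
  have h3 : v - pJ i L h M ≤ C * Real.exp (-(c * (M / (i + L + h)))) := by
    refine le_of_tendsto (H1.sub_const _) ?_
    filter_upwards [eventually_ge_atTop M] with M' hM'
    exact hb i L h M M' hi hL hh hM'
  rw [abs_sub_comm, abs_of_nonneg (by linarith)]
  exact h3

/-- triples `(L, i, h)` with `L → ∞`, `i / L → a` and `h / L → b` -/
noncomputable def nearJ' (a b : ℝ) : Filter (ℕ × ℕ × ℕ) :=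
  comap (fun p : ℕ × ℕ × ℕ => p.1) atTop ⊓
    (comap (fun p : ℕ × ℕ × ℕ => (p.2.1 : ℝ) / p.1) (𝓝 a) ⊓
      comap (fun p : ℕ × ℕ × ℕ => (p.2.2 : ℝ) / p.1) (𝓝 b))

instance (a b : ℝ) : (nearJ' a b).IsCountablyGenerated := by
  unfold nearJ'
  infer_instance

/-- convergence along sequences, all parities -/
theorem pJ_seq' (HT : TruncAll) {val : ℕ → ℕ → ℕ → ℝ} {G : ℝ → ℝ → ℝ}
    (H1 : ∀ i L h : ℕ, Odd i → Odd L → Odd h →
      Tendsto (fun M : ℕ => pJ i L h M) atTop (𝓝 (val i L h)))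
    (H2 : ∀ (i L h : ℕ → ℕ) (a b : ℝ), 0 < a → 0 < b → (∀ m, Odd (i m)) →
      (∀ m, Odd (L m)) → (∀ m, Odd (h m)) → Tendsto L atTop atTop →
      Tendsto (fun m => (i m : ℝ) / L m) atTop (𝓝 a) →
      Tendsto (fun m => (h m : ℝ) / L m) atTop (𝓝 b) →
      Tendsto (fun m => val (i m) (L m) (h m)) atTop (𝓝 (G a b)))
    {i L h : ℕ → ℕ} {a b : ℝ} (ha0 : 0 < a) (hb0 : 0 < b) (hlim : Tendsto L atTop atTop)
    (ha : Tendsto (fun m => (i m : ℝ) / L m) atTop (𝓝 a))
    (hb : Tendsto (fun m => (h m : ℝ) / L m) atTop (𝓝 b)) :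
    Tendsto (fun m => pJ (i m) (L m) (h m)
      (((i m + L m + h m) * (i m + L m + h m) : ℕ) : ℤ)) atTop (𝓝 (G a b)) := by
  obtain ⟨c, hc, C, hC, hbd⟩ := pJ_height' HT
  have hL : Tendsto (fun m => (L m : ℝ)) atTop atTop := tendsto_natCast_atTop_atTop.comp hlim
  have hh : Tendsto (fun m => (h m : ℝ)) atTop atTop := by
    have h1 : Tendsto (fun m => ((h m : ℝ) / L m) * L m) atTop atTop :=
      Tendsto.pos_mul_atTop hb0 hb hL
    refine h1.congr' ?_
    filter_upwards [hL.eventually_gt_atTop 0] with m hm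
    field_simp
  have hi : Tendsto (fun m => (i m : ℝ)) atTop atTop := by
    have h1 : Tendsto (fun m => ((i m : ℝ) / L m) * L m) atTop atTop :=
      Tendsto.pos_mul_atTop ha0 ha hL
    refine h1.congr' ?_
    filter_upwards [hL.eventually_gt_atTop 0] with m hm
    field_simp
  have hev : ∀ᶠ m in atTop, 1 ≤ i m ∧ 1 ≤ L m ∧ 1 ≤ h m := by
    filter_upwards [hlim.eventually_ge_atTop 1, hi.eventually_ge_atTop 1,
      hh.eventually_ge_atTop 1] with m h1 h2 h3
    exact ⟨by exact_mod_cast h2, h1, by exact_mod_cast h3⟩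
  obtain ⟨m0, hm0⟩ := eventually_atTop.1 hev
  -- shift the sequences
  rw [← tendsto_add_atTop_iff_nat m0]
  have sL := (tendsto_add_atTop_iff_nat (f := L) m0).2 hlim
  have sa := (tendsto_add_atTop_iff_nat (f := fun m => (i m : ℝ) / L m) m0).2 ha
  have sb := (tendsto_add_atTop_iff_nat (f := fun m => (h m : ℝ) / L m) m0).2 hb
  have sh := (tendsto_add_atTop_iff_nat (f := fun m => (h m : ℝ)) m0).2 hh
  have hcm : ∀ m, 1 ≤ i (m + m0) ∧ 1 ≤ L (m + m0) ∧ 1 ≤ h (m + m0) :=
    fun m => hm0 _ (by omega)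
  have lo1 : ∀ x : ℕ, x ≤ lo x + 1 := fun x => by unfold lo; omega
  have lo2 : ∀ x : ℕ, lo x ≤ x + 1 := fun x => by unfold lo; omega
  have up1 : ∀ x : ℕ, x ≤ up x + 1 := fun x => by unfold up; omega
  have up2 : ∀ x : ℕ, up x ≤ x + 1 := fun x => by unfold up; omega
  have hloL : Tendsto (fun m => lo (L (m + m0))) atTop atTop := by
    refine tendsto_atTop_mono (f := fun m => L (m + m0) - 1) (fun m => ?_) ?_
    · have := lo1 (L (m + m0))
      omega
    · exact (tendsto_sub_atTop_nat 1).comp sL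
  have hupL : Tendsto (fun m => up (L (m + m0))) atTop atTop :=
    tendsto_atTop_mono (f := fun m => L (m + m0)) (fun m => by unfold up; omega) sL
  -- the limits of the values for odd parameters
  have lim1 : Tendsto (fun m => val (lo (i (m + m0))) (lo (L (m + m0))) (up (h (m + m0)))) atTop
      (𝓝 (G a b)) :=
    H2 (fun m => lo (i (m + m0))) (fun m => lo (L (m + m0))) (fun m => up (h (m + m0))) a b ha0
      hb0 (fun m => lo_odd _) (fun m => lo_odd _) (fun m => up_odd _) hloL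
      (ratio_tendsto sL sa (fun m => lo1 _) (fun m => lo2 _) (fun m => lo1 _) (fun m => lo2 _))
      (ratio_tendsto sL sb (fun m => lo1 _) (fun m => lo2 _) (fun m => up1 _) (fun m => up2 _))
  have lim2 : Tendsto (fun m => val (up (i (m + m0))) (up (L (m + m0))) (lo (h (m + m0)))) atTop
      (𝓝 (G a b)) :=
    H2 (fun m => up (i (m + m0))) (fun m => up (L (m + m0))) (fun m => lo (h (m + m0))) a b ha0
      hb0 (fun m => up_odd _) (fun m => up_odd _) (fun m => lo_odd _) hupL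
      (ratio_tendsto sL sa (fun m => up1 _) (fun m => up2 _) (fun m => up1 _) (fun m => up2 _))
      (ratio_tendsto sL sb (fun m => up1 _) (fun m => up2 _) (fun m => lo1 _) (fun m => lo2 _))
  -- the truncation errors
  have herr : ∀ (i' L' h' : ℕ → ℕ), (∀ m, 1 ≤ L' m) → (∀ m, i' m ≤ i (m + m0) + 1) →
      (∀ m, L' m ≤ L (m + m0) + 1) → (∀ m, h' m ≤ h (m + m0) + 1) →
      Tendsto (fun m => C * Real.exp (-(c * ((((i (m + m0) + L (m + m0) + h (m + m0)) *
        (i (m + m0) + L (m + m0) + h (m + m0)) : ℕ) : ℝ) / ((i' m : ℝ) + L' m + h' m))))) atTop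
        (𝓝 0) := by
    intro i' L' h' h0 h5 h1 h2
    have hr : Tendsto (fun m => (((i (m + m0) + L (m + m0) + h (m + m0)) *
        (i (m + m0) + L (m + m0) + h (m + m0)) : ℕ) : ℝ) / ((i' m : ℝ) + L' m + h' m))
        atTop atTop := by
      have h3 : Tendsto (fun m => (L (m + m0) : ℝ) * (1 / 4)) atTop atTop :=
        (tendsto_natCast_atTop_atTop.comp sL).atTop_mul_const (by norm_num)
      refine tendsto_atTop_mono' _ ?_ h3
      filter_upwards [sL.eventually_ge_atTop 1] with m hm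
      have a1 : (1 : ℝ) ≤ L (m + m0) := by exact_mod_cast hm
      have a2 : (1 : ℝ) ≤ L' m := by exact_mod_cast h0 m
      have a3 : (L' m : ℝ) ≤ L (m + m0) + 1 := by exact_mod_cast h1 m
      have a4 : (h' m : ℝ) ≤ h (m + m0) + 1 := by exact_mod_cast h2 m
      have a7 : (i' m : ℝ) ≤ i (m + m0) + 1 := by exact_mod_cast h5 m
      have a5 : (0 : ℝ) ≤ h (m + m0) := by positivity
      have a6 : (0 : ℝ) ≤ h' m := by positivity
      have a8 : (0 : ℝ) ≤ i (m + m0) := by positivity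
      have a9 : (0 : ℝ) ≤ i' m := by positivity
      push_cast
      rw [le_div_iff₀ (by linarith)]
      set S : ℝ := (i (m + m0) : ℝ) + L (m + m0) + h (m + m0) with hS
      have b1 : (L (m + m0) : ℝ) ≤ S := by linarith
      have b2 : (i' m : ℝ) + L' m + h' m ≤ 4 * S := by linarith
      have b3 : (0 : ℝ) ≤ L (m + m0) := by linarith
      calc (L (m + m0) : ℝ) * (1 / 4) * ((i' m : ℝ) + L' m + h' m)
          ≤ (L (m + m0) : ℝ) * (1 / 4) * (4 * S) := by
            apply mul_le_mul_of_nonneg_left b2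
            positivity
        _ = (L (m + m0) : ℝ) * S := by ring
        _ ≤ S * S := mul_le_mul_of_nonneg_right b1 (by linarith)
    have h4 := (Real.tendsto_exp_neg_atTop_nhds_zero.comp (hr.const_mul_atTop hc)).const_mul C
    rw [mul_zero] at h4
    exact h4
  have err1 := herr (fun m => lo (i (m + m0))) (fun m => lo (L (m + m0)))
    (fun m => up (h (m + m0))) (fun m => one_le_lo _) (fun m => lo2 _) (fun m => lo2 _)
    (fun m => up2 _)
  have err2 := herr (fun m => up (i (m + m0))) (fun m => up (L (m + m0)))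
    (fun m => lo (h (m + m0))) (fun m => one_le_up _) (fun m => up2 _) (fun m => up2 _)
    (fun m => lo2 _)
  -- the one-arm error
  set nn : ℕ → ℕ := fun m => (h (m + m0) - 1) / 2 with hnn
  have hn : Tendsto nn atTop atTop := by
    rw [tendsto_atTop]
    intro k
    filter_upwards [sh.eventually_ge_atTop (2 * k + 3)] with m hm
    have h2 : 2 * k + 3 ≤ h (m + m0) := by exact_mod_cast hm
    simp only [hnn]
    omega
  have hpi : Tendsto (fun m => 2 * pi1 (nn m)) atTop (𝓝 0) := by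
    have := (pi1_tendsto.comp hn).const_mul 2
    rw [mul_zero] at this
    exact this
  have up' := (lim1.add err1).add hpi
  have lo' := (lim2.sub err2).sub hpi
  simp only [add_zero, sub_zero] at up' lo'
  refine tendsto_of_tendsto_of_tendsto_of_le_of_le lo' up' (fun m => ?_) (fun m => ?_)
  · have h1 := pJ_ge_up' (i := i (m + m0)) (L := L (m + m0)) (h := h (m + m0))
      (M := (i (m + m0) + L (m + m0) + h (m + m0)) * (i (m + m0) + L (m + m0) + h (m + m0)))
      (n := nn m) (hcm m).2.2 (by have := hcm m; simp only [hnn]; omega)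
    have h2 := pJ_bound' hbd (one_le_up _) (one_le_up _) (one_le_lo _)
      (H1 _ _ _ (up_odd (i (m + m0))) (up_odd (L (m + m0))) (lo_odd (h (m + m0))))
      ((i (m + m0) + L (m + m0) + h (m + m0)) * (i (m + m0) + L (m + m0) + h (m + m0)))
    have h3 := (abs_le.1 h2).1
    simp only
    linarith
  · have h1 := pJ_le_lo' (i := i (m + m0)) (L := L (m + m0)) (h := h (m + m0))
      (M := (i (m + m0) + L (m + m0) + h (m + m0)) * (i (m + m0) + L (m + m0) + h (m + m0)))
      (n := nn m) (hcm m).1 (hcm m).2.1 (hcm m).2.2 (by have := hcm m; simp only [hnn]; omega)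
    have h2 := pJ_bound' hbd (one_le_lo _) (one_le_lo _) (one_le_up _)
      (H1 _ _ _ (lo_odd (i (m + m0))) (lo_odd (L (m + m0))) (up_odd (h (m + m0))))
      ((i (m + m0) + L (m + m0) + h (m + m0)) * (i (m + m0) + L (m + m0) + h (m + m0)))
    have h3 := (abs_le.1 h2).2
    simp only
    linarith

/-- **uniform convergence for the T-junction**, all parities, all shapes -/
theorem pJ_uniform' (HT : TruncAll) {val : ℕ → ℕ → ℕ → ℝ} {G : ℝ → ℝ → ℝ}
    (H1 : ∀ i L h : ℕ, Odd i → Odd L → Odd h →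
      Tendsto (fun M : ℕ => pJ i L h M) atTop (𝓝 (val i L h)))
    (H2 : ∀ (i L h : ℕ → ℕ) (a b : ℝ), 0 < a → 0 < b → (∀ m, Odd (i m)) →
      (∀ m, Odd (L m)) → (∀ m, Odd (h m)) → Tendsto L atTop atTop →
      Tendsto (fun m => (i m : ℝ) / L m) atTop (𝓝 a) →
      Tendsto (fun m => (h m : ℝ) / L m) atTop (𝓝 b) →
      Tendsto (fun m => val (i m) (L m) (h m)) atTop (𝓝 (G a b))) :
    ∃ c C : ℝ, 0 < c ∧
      (∀ i L h M : ℕ, Odd i → Odd L → Odd h →
        |pJ i L h M - val i L h| ≤ C * Real.exp (-(c * (M / (i + L + h))))) ∧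
      ∀ a b : ℝ, 0 < a → 0 < b → ∀ ε : ℝ, 0 < ε →
        ∃ δ : ℝ, 0 < δ ∧ ∃ L₀ : ℕ, ∀ i L h M : ℕ, L₀ ≤ L →
          |(i : ℝ) / L - a| < δ → |(h : ℝ) / L - b| < δ →
          |pJ i L h M - G a b| ≤ ε + C * Real.exp (-(c * (M / (i + L + h)))) := by
  obtain ⟨c, hc, C, hC, hbd⟩ := pJ_height' HT
  refine ⟨c, C, hc, fun i L h M hi hL hh => ?_, fun a b ha0 hb0 ε hε => ?_⟩
  · exact pJ_bound' hbd hi.pos hL.pos hh.pos (H1 i L h hi hL hh) M
  · have h1 : Tendsto (fun p : ℕ × ℕ × ℕ => pJ p.2.1 p.1 p.2.2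
        (((p.2.1 + p.1 + p.2.2) * (p.2.1 + p.1 + p.2.2) : ℕ) : ℤ)) (nearJ' a b)
        (𝓝 (G a b)) := by
      apply tendsto_of_seq_tendsto
      intro x hx
      unfold nearJ' at hx
      rw [tendsto_inf, tendsto_inf, tendsto_comap_iff, tendsto_comap_iff, tendsto_comap_iff] at hx
      exact pJ_seq' HT H1 H2 (i := fun m => (x m).2.1) (L := fun m => (x m).1)
        (h := fun m => (x m).2.2) ha0 hb0 hx.1 hx.2.1 hx.2.2
    rw [Metric.tendsto_nhds] at h1
    have h2 := h1 (ε / 2) (half_pos hε)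
    have h3 : ∃ N : ℕ, ∃ δ : ℝ, 0 < δ ∧ ∀ i L h : ℕ, N ≤ L → |(i : ℝ) / L - a| < δ →
        |(h : ℝ) / L - b| < δ →
        |pJ i L h (((i + L + h) * (i + L + h) : ℕ) : ℤ) - G a b| < ε / 2 := by
      unfold nearJ' at h2
      rw [((atTop_basis.comap (fun p : ℕ × ℕ × ℕ => p.1)).inf
        ((Metric.nhds_basis_ball.comap (fun p : ℕ × ℕ × ℕ => (p.2.1 : ℝ) / p.1)).inf
          (Metric.nhds_basis_ball.comap
            (fun p : ℕ × ℕ × ℕ => (p.2.2 : ℝ) / p.1)))).eventually_iff] at h2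
      obtain ⟨⟨N, δ, δ'⟩, ⟨_, hδ, hδ'⟩, h3⟩ := h2
      refine ⟨N, min δ δ', lt_min hδ hδ', fun i L h hN hi hh => ?_⟩
      have e := @h3 (L, i, h) ⟨by simpa using hN, by
        simp only [Set.mem_preimage, Metric.mem_ball, Real.dist_eq]
        exact hi.trans_le (min_le_left _ _), by
        simp only [Set.mem_preimage, Metric.mem_ball, Real.dist_eq]
        exact hh.trans_le (min_le_right _ _)⟩
      rw [Real.dist_eq] at e
      exact e
    obtain ⟨N, δ, hδ, h3⟩ := h3
    -- the error at size (i + L + h)²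
    have hexp : Tendsto (fun L : ℕ => C * Real.exp (-(c * (L : ℝ)))) atTop (𝓝 0) := by
      have e1 : Tendsto (fun L : ℕ => c * (L : ℝ)) atTop atTop :=
        tendsto_natCast_atTop_atTop.const_mul_atTop hc
      have e2 := (Real.tendsto_exp_neg_atTop_nhds_zero.comp e1).const_mul C
      rw [mul_zero] at e2
      exact e2
    have h4 := (Metric.tendsto_nhds.1 hexp) (ε / 2) (half_pos hε)
    obtain ⟨N', hN'⟩ := eventually_atTop.1 h4
    refine ⟨min δ (min a b), lt_min hδ (lt_min ha0 hb0), max (max N N') 1,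
      fun i L h M hL hi hh => ?_⟩
    have hL1 : 1 ≤ L := (le_max_right _ _).trans hL
    have hLN : N ≤ L := ((le_max_left _ _).trans (le_max_left _ _)).trans hL
    have hLN' : N' ≤ L := ((le_max_right _ _).trans (le_max_left _ _)).trans hL
    have hL0 : (0 : ℝ) < L := by exact_mod_cast hL1
    have hi1 : 1 ≤ i := by
      have e1 := (abs_lt.1 hi).1
      have e2 : (0 : ℝ) < i / L := by
        have := (min_le_right δ (min a b)).trans (min_le_left a b)
        linarith
      have e3 : (0 : ℝ) < i := by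
        by_contra hcon
        push Not at hcon
        exact absurd e2 (not_lt.2 (div_nonpos_of_nonpos_of_nonneg hcon hL0.le))
      exact_mod_cast e3
    have hh1 : 1 ≤ h := by
      have e1 := (abs_lt.1 hh).1
      have e2 : (0 : ℝ) < h / L := by
        have := (min_le_right δ (min a b)).trans (min_le_right a b)
        linarith
      have e3 : (0 : ℝ) < h := by
        by_contra hcon
        push Not at hcon
        exact absurd e2 (not_lt.2 (div_nonpos_of_nonpos_of_nonneg hcon hL0.le))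
      exact_mod_cast e3
    have e3 := h3 i L h hLN (hi.trans_le (min_le_left _ _)) (hh.trans_le (min_le_left _ _))
    have e4 := pJ_two' hC hbd (M := M) (M' := (i + L + h) * (i + L + h)) hi1 hL1 hh1
    have e5 := hN' (i + L + h) (by omega)
    rw [Real.dist_eq, sub_zero] at e5
    have e6 : (((i + L + h) * (i + L + h) : ℕ) : ℝ) / ((i : ℝ) + L + h) =
        ((i + L + h : ℕ) : ℝ) := by
      have : (i : ℝ) + L + h ≠ 0 := by positivity
      push_cast
      field_simp
    rw [e6] at e4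
    have e7 := (abs_lt.1 e5).2
    calc |pJ i L h M - G a b| ≤ |pJ i L h M - pJ i L h (((i + L + h) * (i + L + h) : ℕ) : ℤ)| +
          |pJ i L h (((i + L + h) * (i + L + h) : ℕ) : ℤ) - G a b| := abs_sub_le _ _ _
      _ ≤ (C * Real.exp (-(c * (M / (i + L + h)))) +
          C * Real.exp (-(c * ((i + L + h : ℕ) : ℝ)))) + ε / 2 := add_le_add e4 e3.le
      _ ≤ _ := by linarith

end H47Perc.JN
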